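import Mathlib

/-! Gaussian binomial coefficients in a field where `q` is not a root of unity. -/

set_option autoImplicit false

namespace Pool.Agent.Q162.Pfaff

open Finset

variable {K : Type*} [Field K]

/-- `(q; q)_m` -/
def qp (q : K) (m : ℕ) : K := ∏ i ∈ range m, (1 - q ^ (i + 1))

/-- the Gaussian binomial coefficient as a quotient -/
def gauss (q : K) (m k : ℕ) : K := qp q m / (qp q k * qp q (m - k))

/-- the Gaussian binomial coefficient by recursion -/
def gb (q : K) : ℕ → ℕ → K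
  | 0, 0 => 1
  | 0, _ + 1 => 0
  | _ + 1, 0 => 1
  | m + 1, k + 1 => q ^ (k + 1) * gb q m (k + 1) + gb q m k

theorem gb_zero (q : K) (m : ℕ) : gb q m 0 = 1 := by
  cases m <;> rfl

theorem gb_succ (q : K) (m k : ℕ) :
    gb q (m + 1) (k + 1) = q ^ (k + 1) * gb q m (k + 1) + gb q m k := rfl

theorem gb_lt (q : K) (m k : ℕ) (h : m < k) : gb q m k = 0 := by
  induction m generalizing k with
  | zero => cases k with
    | zero => omega
    | succ k => rfl
  | succ m ih => cases k with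
    | zero => omega
    | succ k => rw [gb_succ, ih _ (by omega), ih _ (by omega)]; ring

theorem qp_succ (q : K) (m : ℕ) : qp q (m + 1) = qp q m * (1 - q ^ (m + 1)) := by
  rw [qp, prod_range_succ]; rfl

theorem qp_ne {q : K} (hq : ∀ i, 1 ≤ i → q ^ i ≠ 1) (m : ℕ) : qp q m ≠ 0 := by
  rw [qp, prod_ne_zero_iff]
  intro i _ h
  exact hq (i + 1) (by omega) (sub_eq_zero.mp h).symm

theorem gb_mul (q : K) (m k : ℕ) (h : k ≤ m) :
    gb q m k * (qp q k * qp q (m - k)) = qp q m := by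
  induction m generalizing k with
  | zero =>
    have : k = 0 := by omega
    subst this
    simp [gb, qp]
  | succ m ih =>
    cases k with
    | zero => rw [gb_zero]; simp [qp]
    | succ k =>
      rw [gb_succ, Nat.add_sub_add_right]
      rcases Nat.lt_or_ge k m with hk | hk
      · have h1 := ih (k + 1) (by omega)
        have h2 := ih k (by omega)
        obtain ⟨d, rfl⟩ : ∃ d, m = k + 1 + d := ⟨m - (k + 1), by omega⟩
        have e1 : k + 1 + d - (k + 1) = d := by omega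
        have e2 : k + 1 + d - k = d + 1 := by omega
        rw [e1] at h1
        rw [e2] at h2 ⊢
        rw [qp_succ q (k + 1 + d), qp_succ q d, qp_succ q k]
        rw [qp_succ q k] at h1
        rw [qp_succ q d] at h2
        linear_combination q ^ (k + 1) * (1 - q ^ (d + 1)) * h1 + (1 - q ^ (k + 1)) * h2
      · have hkm : k = m := by omega
        subst hkm
        have h2 := ih k le_rfl
        rw [gb_lt q k (k + 1) (by omega), mul_zero, zero_add, qp_succ q k]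
        linear_combination (1 - q ^ (k + 1)) * h2

theorem gauss_eq {q : K} (hq : ∀ i, 1 ≤ i → q ^ i ≠ 1) (m k : ℕ) (h : k ≤ m) :
    gauss q m k = gb q m k := by
  rw [gauss, div_eq_iff (mul_ne_zero (qp_ne hq _) (qp_ne hq _)), gb_mul q m k h]

theorem abs1 {q : K} (hq : ∀ i, 1 ≤ i → q ^ i ≠ 1) (m k : ℕ) (h : k ≤ m + 1) :
    gb q (m + 1) k * (1 - q ^ (m + 1 - k)) = (1 - q ^ (m + 1)) * gb q m k := by
  rcases Nat.lt_or_ge m k with hk | hk
  · have : k = m + 1 := by omega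
    subst this
    rw [gb_lt q m (m + 1) (by omega)]
    simp
  · have h1 := gb_mul q (m + 1) k h
    have h2 := gb_mul q m k hk
    obtain ⟨d, rfl⟩ : ∃ d, m = k + d := ⟨m - k, by omega⟩
    have e1 : k + d + 1 - k = d + 1 := by omega
    have e2 : k + d - k = d := by omega
    rw [e1, qp_succ q d, qp_succ q (k + d)] at h1
    rw [e2] at h2
    rw [e1]
    have hne : qp q k * qp q d ≠ 0 := mul_ne_zero (qp_ne hq _) (qp_ne hq _)
    apply mul_right_cancel₀ hne
    linear_combination h1 - (1 - q ^ (k + d + 1)) * h2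

theorem abs2 {q : K} (hq : ∀ i, 1 ≤ i → q ^ i ≠ 1) (m k : ℕ) :
    gb q (m + 1) (k + 1) * (1 - q ^ (k + 1)) = (1 - q ^ (m + 1)) * gb q m k := by
  rcases Nat.lt_or_ge m k with hk | hk
  · rw [gb_lt q m k hk, gb_lt q (m + 1) (k + 1) (by omega)]; ring
  · have h1 := gb_mul q (m + 1) (k + 1) (by omega)
    have h2 := gb_mul q m k hk
    rw [Nat.add_sub_add_right, qp_succ q k, qp_succ q m] at h1
    have hne : qp q k * qp q (m - k) ≠ 0 := mul_ne_zero (qp_ne hq _) (qp_ne hq _)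
    apply mul_right_cancel₀ hne
    linear_combination h1 - (1 - q ^ (m + 1)) * h2

/-- Rogers–Szego polynomial -/
def rs (a q : K) (r : ℕ) : K := ∑ j ∈ range (r + 1), gb q r j * a ^ j

theorem rs_extend (a q : K) (r : ℕ) : rs a q r = ∑ j ∈ range (r + 2), gb q r j * a ^ j := by
  rw [sum_range_succ _ (r + 1), gb_lt q r (r + 1) (by omega), zero_mul, add_zero]; rfl

theorem rs_head (a q : K) (r : ℕ) :
    rs a q r = 1 + ∑ j ∈ range r, gb q r (j + 1) * a ^ (j + 1) := by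
  rw [rs, sum_range_succ', gb_zero]; ring

theorem rs_rec {q : K} (hq : ∀ i, 1 ≤ i → q ^ i ≠ 1) (a : K) (r : ℕ) :
    rs a q (r + 2) = (1 + a) * rs a q (r + 1) - a * (1 - q ^ (r + 1)) * rs a q r := by
  have h1 : rs a q (r + 1) = 1 + ∑ j ∈ range (r + 2), gb q (r + 1) (j + 1) * a ^ (j + 1) := by
    rw [sum_range_succ _ (r + 1), gb_lt q (r + 1) (r + 1 + 1) (by omega), zero_mul, add_zero,
      ← rs_head]
  have h2 : a * rs a q (r + 1) = ∑ j ∈ range (r + 2), gb q (r + 1) j * a ^ (j + 1) := by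
    rw [rs, mul_sum]
    apply sum_congr rfl
    intro j _
    ring
  have h3 : a * rs a q r = ∑ j ∈ range (r + 2), gb q r j * a ^ (j + 1) := by
    rw [rs_extend, mul_sum]
    apply sum_congr rfl
    intro j _
    ring
  have h4 : (1 + a) * rs a q (r + 1) - a * (1 - q ^ (r + 1)) * rs a q r =
      rs a q (r + 1) + a * rs a q (r + 1) - (1 - q ^ (r + 1)) * (a * rs a q r) := by ring
  rw [h4, h2, h3, h1, rs_head, mul_sum]
  have h5 : ∀ j ∈ range (r + 2), gb q (r + 2) (j + 1) * a ^ (j + 1) =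
      gb q (r + 1) (j + 1) * a ^ (j + 1) + gb q (r + 1) j * a ^ (j + 1) -
        (1 - q ^ (r + 1)) * (gb q r j * a ^ (j + 1)) := by
    intro j _
    have := abs2 hq r j
    rw [gb_succ q (r + 1) j]
    linear_combination (- a ^ (j + 1)) * this
  rw [sum_congr rfl h5, sum_sub_distrib, sum_add_distrib]
  ring

/-- the polynomial of the second identity, scaled -/
def tt (q : K) (n k : ℕ) : K := q ^ ((n : ℤ) * (n - 1) - 2 * k * (n - k)) * gb (q ^ 2) n k

theorem tt_rec {q : K} (h0 : q ≠ 0) (hq : ∀ i, 1 ≤ i → q ^ i ≠ 1) (n k : ℕ) :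
    tt q (n + 2) (k + 1) = q ^ (2 * n + 2) * (tt q (n + 1) (k + 1) + tt q (n + 1) k) +
      q ^ (2 * n) * (1 - q ^ (2 * n + 2)) * tt q n k := by
  have hq2 : ∀ i, 1 ≤ i → (q ^ 2) ^ i ≠ 1 := by
    intro i hi
    rw [← pow_mul]
    exact hq _ (by omega)
  unfold tt
  set E : ℤ := ((n + 2 : ℕ) : ℤ) * ((n + 2 : ℕ) - 1) - 2 * ((k + 1 : ℕ) : ℤ) *
    ((n + 2 : ℕ) - (k + 1 : ℕ)) with hE
  have e1 : q ^ (2 * n + 2) * q ^ (((n + 1 : ℕ) : ℤ) * ((n + 1 : ℕ) - 1) -
      2 * ((k + 1 : ℕ) : ℤ) * ((n + 1 : ℕ) - (k + 1 : ℕ))) = q ^ E * (q ^ 2) ^ (k + 1) := by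
    rw [← pow_mul, ← zpow_natCast, ← zpow_natCast, ← zpow_add₀ h0, ← zpow_add₀ h0, hE]
    congr 1
    push_cast
    ring
  have e3 : q ^ (2 * n) * q ^ ((n : ℤ) * ((n : ℤ) - 1) - 2 * (k : ℤ) * ((n : ℤ) - k)) = q ^ E := by
    rw [← zpow_natCast, ← zpow_add₀ h0, hE]
    congr 1
    push_cast
    ring
  have key : gb (q ^ 2) (n + 1) k * q ^ (2 * n + 2) * q ^ (((n + 1 : ℕ) : ℤ) * ((n + 1 : ℕ) - 1) -
      2 * (k : ℤ) * ((n + 1 : ℕ) - k)) + q ^ E * ((1 - q ^ (2 * n + 2)) * gb (q ^ 2) n k) =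
      q ^ E * gb (q ^ 2) (n + 1) k := by
    rcases Nat.lt_or_ge (n + 1) k with hk | hk
    · rw [gb_lt _ (n + 1) k hk, gb_lt _ n k (by omega)]; ring
    · have h1 := abs1 hq2 n k hk
      have e2 : q ^ (2 * n + 2) * q ^ (((n + 1 : ℕ) : ℤ) * ((n + 1 : ℕ) - 1) -
          2 * (k : ℤ) * ((n + 1 : ℕ) - k)) = q ^ E * (q ^ 2) ^ (n + 1 - k) := by
        rw [← pow_mul, ← zpow_natCast, ← zpow_natCast, ← zpow_add₀ h0, ← zpow_add₀ h0, hE]
        congr 1
        push_cast [Nat.cast_sub hk]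
        ring
      have e4 : q ^ (2 * n + 2) = (q ^ 2) ^ (n + 1) := by rw [← pow_mul]; ring_nf
      rw [mul_assoc, e2, e4, ← h1]
      ring
  rw [gb_succ (q ^ 2) (n + 1) k]
  linear_combination (-gb (q ^ 2) (n + 1) (k + 1)) * e1 - key -
    (1 - q ^ (2 * n + 2)) * gb (q ^ 2) n k * e3

/-- the sum in the second identity -/
def ts (a q : K) (n : ℕ) : K := ∑ k ∈ range (n + 1), tt q n k * a ^ k

theorem tt_lt (q : K) (n k : ℕ) (h : n < k) : tt q n k = 0 := by
  rw [tt, gb_lt _ _ _ h, mul_zero]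

theorem ts_rec {q : K} (h0 : q ≠ 0) (hq : ∀ i, 1 ≤ i → q ^ i ≠ 1) (a : K) (n : ℕ) :
    ts a q (n + 2) = (1 + a) * q ^ (2 * n + 2) * ts a q (n + 1) +
      a * (q ^ (2 * n) * (1 - q ^ (2 * n + 2))) * ts a q n := by
  have h1 : ts a q (n + 1) = tt q (n + 1) 0 +
      ∑ j ∈ range (n + 2), tt q (n + 1) (j + 1) * a ^ (j + 1) := by
    rw [sum_range_succ _ (n + 1), tt_lt q (n + 1) (n + 1 + 1) (by omega), zero_mul, add_zero,
      ts, sum_range_succ']
    ring
  have h2 : a * ts a q (n + 1) = ∑ j ∈ range (n + 2), tt q (n + 1) j * a ^ (j + 1) := by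
    rw [ts, mul_sum]
    apply sum_congr rfl
    intro j _
    ring
  have h3 : a * ts a q n = ∑ j ∈ range (n + 2), tt q n j * a ^ (j + 1) := by
    rw [sum_range_succ _ (n + 1), tt_lt q n (n + 1) (by omega), zero_mul, add_zero, ts, mul_sum]
    apply sum_congr rfl
    intro j _
    ring
  have h4 : (1 + a) * q ^ (2 * n + 2) * ts a q (n + 1) +
      a * (q ^ (2 * n) * (1 - q ^ (2 * n + 2))) * ts a q n =
      q ^ (2 * n + 2) * ts a q (n + 1) + q ^ (2 * n + 2) * (a * ts a q (n + 1)) +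
        (q ^ (2 * n) * (1 - q ^ (2 * n + 2))) * (a * ts a q n) := by ring
  rw [h4, h2, h3, h1, ts, sum_range_succ']
  have h5 : ∀ j ∈ range (n + 2), tt q (n + 2) (j + 1) * a ^ (j + 1) =
      q ^ (2 * n + 2) * (tt q (n + 1) (j + 1) * a ^ (j + 1)) +
      q ^ (2 * n + 2) * (tt q (n + 1) j * a ^ (j + 1)) +
        q ^ (2 * n) * (1 - q ^ (2 * n + 2)) * (tt q n j * a ^ (j + 1)) := by
    intro j _
    rw [tt_rec h0 hq]
    ring
  have h6 : tt q (n + 2) 0 = q ^ (2 * n + 2) * tt q (n + 1) 0 := by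
    rw [tt, tt, gb_zero, gb_zero, mul_one, mul_one, ← zpow_natCast, ← zpow_add₀ h0]
    congr 1
    push_cast
    ring
  rw [sum_congr rfl h5, sum_add_distrib, sum_add_distrib, ← mul_sum, ← mul_sum, ← mul_sum, h6]
  ring

end Pool.Agent.Q162.Pfaff
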