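import Pool.Agent.Q162.Pfaff.Gram
import Pool.Agent.Q162.Pfaff.QBin

/-! Al-Salam–Carlitz polynomials: orthogonality and the two skew Gram matrices. -/

set_option autoImplicit false

namespace Pool.Agent.Q162.Pfaff

open Polynomial Finset

variable {K : Type*} [Field K]

/-- `f ↦ (f(x) - f(q x)) / x` -/
noncomputable def dq (q : K) : K[X] →ₗ[K] K[X] :=
  Polynomial.lsum (fun n => (1 - q ^ n) • Polynomial.monomial (n - 1))

theorem dq_monomial (q : K) (n : ℕ) (c : K) :
    dq q (monomial n c) = monomial (n - 1) ((1 - q ^ n) * c) := by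
  rw [dq, Polynomial.lsum_apply, Polynomial.sum_monomial_index]
  · rw [LinearMap.smul_apply, Polynomial.smul_monomial, smul_eq_mul]
  · simp

theorem dq_X_pow (q : K) (n : ℕ) : dq q (X ^ n) = C (1 - q ^ n) * X ^ (n - 1) := by
  rw [← Polynomial.monomial_one_right_eq_X_pow, dq_monomial, mul_one,
    ← Polynomial.C_mul_X_pow_eq_monomial]

theorem X_mul_dq (q : K) (f : K[X]) : X * dq q f = f - f.comp (C q * X) := by
  induction f using Polynomial.induction_on' with
  | add f g hf hg => rw [map_add, mul_add, hf, hg, add_comp]; ring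
  | monomial n c =>
    rw [dq_monomial, ← C_mul_X_pow_eq_monomial, ← C_mul_X_pow_eq_monomial, mul_comp, C_comp,
      X_pow_comp, mul_pow, ← C_pow]
    cases n with
    | zero => simp
    | succ n =>
      rw [Nat.add_sub_cancel, C_mul, C_sub, C_1]
      ring

theorem dq_mul (q : K) (f g : K[X]) :
    dq q (f * g) = dq q f * g + f.comp (C q * X) * dq q g := by
  apply mul_left_cancel₀ (Polynomial.X_ne_zero (R := K))
  rw [mul_add, X_mul_dq, ← mul_assoc, X_mul_dq, mul_comp,
    show X * (f.comp (C q * X) * dq q g) = f.comp (C q * X) * (X * dq q g) by ring, X_mul_dq]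
  ring

theorem dq_mul' (q : K) (f g : K[X]) :
    dq q (f * g) = dq q f * g + (f - X * dq q f) * dq q g := by
  rw [dq_mul]
  congr 2
  rw [X_mul_dq]
  ring

theorem dq_C (q c : K) : dq q (C c) = 0 := by
  rw [← monomial_zero_left, dq_monomial]
  simp

theorem dq_C_mul (q c : K) (f : K[X]) : dq q (C c * f) = C c * dq q f := by
  rw [← smul_eq_C_mul, map_smul, smul_eq_C_mul]

theorem dq_X (q : K) : dq q X = C (1 - q) := by
  have := dq_X_pow q 1
  simpa using this

theorem dq_X_mul (q : K) (f : K[X]) : dq q (X * f) = C (1 - q) * f + C q * (X * dq q f) := by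
  rw [dq_mul', dq_X, C_sub, C_1]
  ring

/-- Al-Salam–Carlitz polynomials -/
noncomputable def U (a q : K) : ℕ → K[X]
  | 0 => 1
  | 1 => X - C (1 + a)
  | n + 2 => (X - C ((1 + a) * q ^ (n + 1))) * U a q (n + 1) +
      C (a * q ^ n * (1 - q ^ (n + 1))) * U a q n

theorem U_rec (a q : K) (n : ℕ) : U a q (n + 2) = (X - C ((1 + a) * q ^ (n + 1))) * U a q (n + 1) +
      C (a * q ^ n * (1 - q ^ (n + 1))) * U a q n := by rw [U]

theorem U_zero (a q : K) : U a q 0 = 1 := by rw [U]

theorem U_one (a q : K) : U a q 1 = X - C (1 + a) := by rw [U]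

theorem U_coeff_lt (a q : K) : ∀ i j, i < j → (U a q i).coeff j = 0 := by
  intro i
  induction i using Nat.twoStepInduction with
  | zero =>
    intro j hj
    rw [U_zero, coeff_one, if_neg (by omega)]
  | one =>
    intro j hj
    rw [U_one, coeff_sub, coeff_X, coeff_C, if_neg (by omega), if_neg (by omega), sub_zero]
  | more n ih1 ih2 =>
    intro j hj
    rw [U_rec, coeff_add, sub_mul, coeff_sub, coeff_C_mul, coeff_C_mul, ih1 j (by omega),
      ih2 j (by omega)]
    obtain ⟨i, rfl⟩ : ∃ i, j = i + 1 := ⟨j - 1, by omega⟩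
    rw [coeff_X_mul, ih2 i (by omega)]
    ring

theorem U_coeff_self (a q : K) : ∀ i, (U a q i).coeff i = 1 := by
  intro i
  induction i using Nat.twoStepInduction with
  | zero => rw [U_zero, coeff_one, if_pos rfl]
  | one => rw [U_one, coeff_sub, coeff_X, coeff_C, if_pos rfl, if_neg (by omega), sub_zero]
  | more n ih1 ih2 =>
    rw [U_rec, coeff_add, sub_mul, coeff_sub, coeff_C_mul, coeff_C_mul,
      U_coeff_lt a q n (n + 2) (by omega), U_coeff_lt a q (n + 1) (n + 2) (by omega),
      show n + 2 = (n + 1) + 1 by rfl, coeff_X_mul, ih2]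
    ring

theorem dq_U_zero (a q : K) : dq q (U a q 0) = 0 := by
  rw [U_zero, ← C_1, dq_C]

/-- lowering -/
theorem dq_U (a q : K) (n : ℕ) : dq q (U a q (n + 1)) = C (1 - q ^ (n + 1)) * U a q n := by
  induction n using Nat.twoStepInduction with
  | zero =>
    rw [zero_add, U_one, map_sub, dq_X, dq_C, U_zero, sub_zero, mul_one, pow_one]
  | one =>
    have hd1 : dq q (1 : K[X]) = 0 := by rw [← C_1, dq_C]
    have hd2 : dq q (X - C (1 + a)) = C (1 - q) := by rw [map_sub, dq_X, dq_C, sub_zero]
    rw [show (1 + 1 : ℕ) = 0 + 2 by rfl, U_rec, sub_mul, map_add, map_sub, dq_X_mul, dq_C_mul,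
      dq_C_mul, zero_add, U_one, U_zero, hd1, hd2]
    simp only [C_mul, C_sub, C_add, C_pow, C_1]
    ring
  | more n ih1 ih2 =>
    rw [U_rec a q (n + 1), sub_mul, map_add, map_sub, dq_X_mul, dq_C_mul, dq_C_mul,
      show n + 1 + 1 = n + 2 by rfl, ih2, ih1, U_rec a q n]
    simp only [C_mul, C_sub, C_add, C_pow, C_1]
    ring

/-- the moment functional -/
noncomputable def mom (a q : K) : K[X] →ₗ[K] K :=
  Polynomial.lsum (fun n => LinearMap.toSpanSingleton K K (rs a q n))

theorem mom_monomial (a q : K) (n : ℕ) (c : K) : mom a q (monomial n c) = c * rs a q n := by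
  rw [mom, Polynomial.lsum_apply, Polynomial.sum_monomial_index]
  · rw [LinearMap.toSpanSingleton_apply, smul_eq_mul]
  · simp

theorem mom_X_pow (a q : K) (n : ℕ) : mom a q (X ^ n) = rs a q n := by
  rw [← Polynomial.monomial_one_right_eq_X_pow, mom_monomial, one_mul]

theorem mom_C_mul (a q c : K) (f : K[X]) : mom a q (C c * f) = c * mom a q f := by
  rw [← smul_eq_C_mul, map_smul, smul_eq_mul]

theorem mom_one (a q : K) : mom a q 1 = 1 := by
  have := mom_X_pow a q 0
  rw [pow_zero] at this
  rw [this]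
  simp [rs, gb]

/-- integration by parts -/
theorem mom_X_mul {q : K} (hq : ∀ i, 1 ≤ i → q ^ i ≠ 1) (a : K) (f : K[X]) :
    mom a q (X * f) = (1 + a) * mom a q f - a * mom a q (dq q f) := by
  induction f using Polynomial.induction_on' with
  | add f g hf hg => rw [mul_add, map_add, map_add, map_add, map_add, hf, hg]; ring
  | monomial n c =>
    rw [X_mul_monomial, dq_monomial, mom_monomial, mom_monomial, mom_monomial]
    cases n with
    | zero => simp [rs, gb, sum_range_succ]; ring
    | succ n =>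
      rw [rs_rec hq, Nat.add_sub_cancel]
      ring

/-- raising -/
theorem mom_U {q : K} (hq : ∀ i, 1 ≤ i → q ^ i ≠ 1) (a : K) (n : ℕ) : ∀ f : K[X],
    mom a q (U a q (n + 1) * f) = - (a * q ^ n) * mom a q (U a q n * dq q f) := by
  induction n using Nat.twoStepInduction with
  | zero =>
    intro f
    rw [zero_add, U_one, U_zero, sub_mul, map_sub, mom_X_mul hq, mom_C_mul, one_mul]
    ring
  | one =>
    intro f
    have e1 : U a q (1 + 1) * f = X * (f * U a q 1) - C ((1 + a) * q) * (U a q 1 * f) +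
        C (a * (1 - q)) * f := by
      rw [show (1 + 1 : ℕ) = 0 + 2 by rfl, U_rec, zero_add, pow_zero, pow_one, mul_one, U_zero]
      ring
    have e2 : dq q (f * U a q 1) = U a q 1 * dq q f + C (1 - q) * f -
        C (1 - q) * (U a q 1 * dq q f) - C ((1 - q) * (1 + a)) * dq q f := by
      have h := dq_U a q 0
      rw [zero_add, U_zero, pow_one, mul_one] at h
      rw [dq_mul', h, U_one]
      simp only [C_mul, C_sub, C_add, C_1]
      ring
    have e3 : mom a q (U a q 1 * f) = - a * mom a q (dq q f) := by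
      rw [U_one, sub_mul, map_sub, mom_X_mul hq, mom_C_mul]
      ring
    rw [e1, map_add, map_sub, mom_X_mul hq, mom_C_mul, mom_C_mul, e2, map_sub, map_sub, map_add,
      mom_C_mul, mom_C_mul, mom_C_mul, mul_comm f (U a q 1), e3]
    ring
  | more n ih1 ih2 =>
    intro f
    have e1 : U a q (n + 2 + 1) * f = X * (f * U a q (n + 2)) -
        C ((1 + a) * q ^ (n + 2)) * (U a q (n + 2) * f) +
        C (a * q ^ (n + 1) * (1 - q ^ (n + 2))) * (U a q (n + 1) * f) := by
      rw [show n + 2 + 1 = (n + 1) + 2 by rfl, U_rec a q (n + 1)]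
      ring
    have e2 : dq q (f * U a q (n + 2)) = U a q (n + 2) * dq q f +
        C (1 - q ^ (n + 2)) * (U a q (n + 1) * f) -
        C (1 - q ^ (n + 2)) * (U a q (n + 2) * dq q f +
          C ((1 + a) * q ^ (n + 1)) * (U a q (n + 1) * dq q f) -
          C (a * q ^ n * (1 - q ^ (n + 1))) * (U a q n * dq q f)) := by
      rw [dq_mul', show n + 2 = (n + 1) + 1 by rfl, dq_U, U_rec a q n]
      ring
    have h1 := ih1 f
    have h2 := ih2 f
    rw [show n + 1 + 1 = n + 2 by rfl] at h2
    rw [e1, map_add, map_sub, mom_X_mul hq, mom_C_mul, mom_C_mul, e2, map_sub, map_add, mom_C_mul,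
      mom_C_mul, map_sub, map_add, mom_C_mul, mom_C_mul, mul_comm f (U a q (n + 2)), h2, h1]
    ring

/-- squared norms -/
def nm (a q : K) : ℕ → K
  | 0 => 1
  | n + 1 => - (a * q ^ n) * (1 - q ^ (n + 1)) * nm a q n

theorem orth {q : K} (hq : ∀ i, 1 ≤ i → q ^ i ≠ 1) (a : K) (n : ℕ) : ∀ m,
    mom a q (U a q n * U a q m) = if n = m then nm a q n else 0 := by
  induction n with
  | zero =>
    intro m
    cases m with
    | zero => rw [U_zero, one_mul, mom_one, if_pos rfl, nm]
    | succ m =>
      rw [mul_comm, mom_U hq, dq_U_zero, mul_zero, map_zero, mul_zero, if_neg (by omega)]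
  | succ n ih =>
    intro m
    cases m with
    | zero =>
      rw [mom_U hq, dq_U_zero, mul_zero, map_zero, mul_zero, if_neg (by omega)]
    | succ m =>
      rw [mom_U hq, dq_U, mul_left_comm, mom_C_mul, ih]
      by_cases h : n = m
      · subst h
        rw [if_pos rfl, if_pos rfl, nm]
        ring
      · rw [if_neg h, if_neg (by omega)]
        ring

/-- the basic skew form -/
noncomputable def form0 (a q : K) : K[X] →ₗ[K] K[X] →ₗ[K] K :=
  LinearMap.mk₂ K (fun f h => mom a q (f * dq q h - h * dq q f))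
    (by intro f g h; rw [← map_add]; congr 1; rw [map_add]; ring)
    (by intro c f h; rw [smul_eq_mul, ← mom_C_mul]; congr 1; rw [map_smul, smul_eq_C_mul,
          smul_eq_C_mul]; ring)
    (by intro f g h; rw [← map_add]; congr 1; rw [map_add]; ring)
    (by intro c f h; rw [smul_eq_mul, ← mom_C_mul]; congr 1; rw [map_smul, smul_eq_C_mul,
          smul_eq_C_mul]; ring)

theorem form0_apply (a q : K) (f h : K[X]) :
    form0 a q f h = mom a q (f * dq q h - h * dq q f) := rfl

/-- the skew form with an additional factor `x` -/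
noncomputable def form1 (a q : K) : K[X] →ₗ[K] K[X] →ₗ[K] K :=
  LinearMap.mk₂ K (fun f h => mom a q (X * (f * dq q h - h * dq q f)))
    (by intro f g h; rw [← map_add]; congr 1; rw [map_add]; ring)
    (by intro c f h; rw [smul_eq_mul, ← mom_C_mul]; congr 1; rw [map_smul, smul_eq_C_mul,
          smul_eq_C_mul]; ring)
    (by intro f g h; rw [← map_add]; congr 1; rw [map_add]; ring)
    (by intro c f h; rw [smul_eq_mul, ← mom_C_mul]; congr 1; rw [map_smul, smul_eq_C_mul,
          smul_eq_C_mul]; ring)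

theorem form1_apply (a q : K) (f h : K[X]) :
    form1 a q f h = mom a q (X * (f * dq q h - h * dq q f)) := rfl

theorem form0_X (a q : K) (i j : ℕ) (h : 1 ≤ i + j) :
    form0 a q (X ^ i) (X ^ j) = (q ^ i - q ^ j) * rs a q (i + j - 1) := by
  rw [form0_apply, dq_X_pow, dq_X_pow]
  have e1 : (X : K[X]) ^ i * (C (1 - q ^ j) * X ^ (j - 1)) = C (1 - q ^ j) * X ^ (i + j - 1) := by
    cases j with
    | zero => simp
    | succ j =>
      rw [Nat.add_sub_cancel, show i + (j + 1) - 1 = i + j by omega, pow_add]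
      ring
  have e2 : (X : K[X]) ^ j * (C (1 - q ^ i) * X ^ (i - 1)) = C (1 - q ^ i) * X ^ (i + j - 1) := by
    cases i with
    | zero => simp
    | succ i =>
      rw [Nat.add_sub_cancel, show i + 1 + j - 1 = i + j by omega, pow_add]
      ring
  rw [e1, e2, map_sub, mom_C_mul, mom_C_mul, mom_X_pow]
  ring

theorem form1_X (a q : K) (i j : ℕ) :
    form1 a q (X ^ i) (X ^ j) = (q ^ i - q ^ j) * rs a q (i + j) := by
  rw [form1_apply, dq_X_pow, dq_X_pow]
  have e1 : X * ((X : K[X]) ^ i * (C (1 - q ^ j) * X ^ (j - 1))) = C (1 - q ^ j) * X ^ (i + j) := by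
    cases j with
    | zero => simp
    | succ j =>
      rw [Nat.add_sub_cancel, pow_add, pow_succ]
      ring
  have e2 : X * ((X : K[X]) ^ j * (C (1 - q ^ i) * X ^ (i - 1))) = C (1 - q ^ i) * X ^ (i + j) := by
    cases i with
    | zero => simp
    | succ i =>
      rw [Nat.add_sub_cancel, pow_add, pow_succ]
      ring
  rw [mul_sub, e1, e2, map_sub, mom_C_mul, mom_C_mul, mom_X_pow]
  ring

/-- the entries next to the diagonal of the first Gram matrix -/
def bb (a q : K) (i : ℕ) : K := (1 - q ^ (i + 1)) * nm a q i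

theorem dq_U' (a q : K) (n : ℕ) : dq q (U a q n) = C (1 - q ^ n) * U a q (n - 1) := by
  cases n with
  | zero => rw [dq_U_zero]; simp
  | succ n => rw [dq_U, Nat.add_sub_cancel]

theorem form0_U {q : K} (hq : ∀ i, 1 ≤ i → q ^ i ≠ 1) (a : K) (i j : ℕ) (h : i < j) :
    form0 a q (U a q i) (U a q j) = if j = i + 1 then bb a q i else 0 := by
  rw [form0_apply, dq_U', dq_U', map_sub, mul_left_comm, mul_left_comm (U a q j), mom_C_mul,
    mom_C_mul, orth hq, orth hq, if_neg (show ¬ j = i - 1 by omega), mul_zero, sub_zero]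
  by_cases hj : j = i + 1
  · subst hj
    rw [Nat.add_sub_cancel, if_pos rfl, if_pos rfl, bb]
  · rw [if_neg (by omega), if_neg hj, mul_zero]

theorem X_mul_U (a q : K) (n : ℕ) : X * U a q (n + 1) = U a q (n + 2) +
    C ((1 + a) * q ^ (n + 1)) * U a q (n + 1) - C (a * q ^ n * (1 - q ^ (n + 1))) * U a q n := by
  rw [U_rec]; ring

theorem X_mul_U_zero (a q : K) : X * U a q 0 = U a q 1 + C (1 + a) * U a q 0 := by
  rw [U_one, U_zero]; ring

/-- `mom (x U_i U_j)` for `i ≤ j` -/
theorem mom_X_U_U {q : K} (hq : ∀ i, 1 ≤ i → q ^ i ≠ 1) (a : K) (i j : ℕ) (h : i ≤ j) :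
    mom a q (X * (U a q i * U a q j)) = if j = i then (1 + a) * q ^ i * nm a q i
      else if j = i + 1 then nm a q j else 0 := by
  cases i with
  | zero =>
    rw [← mul_assoc, X_mul_U_zero, add_mul, mul_assoc, map_add, mom_C_mul, orth hq, orth hq]
    rcases Nat.lt_trichotomy j 1 with hj | hj | hj
    · have : j = 0 := by omega
      subst this
      simp
    · subst hj
      simp
    · rw [if_neg (by omega), if_neg (by omega), if_neg (by omega), if_neg (by omega)]
      ring
  | succ i =>
    rw [← mul_assoc, X_mul_U, sub_mul, add_mul, mul_assoc, mul_assoc, map_sub, map_add, mom_C_mul,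
      mom_C_mul, orth hq, orth hq, orth hq, if_neg (show ¬ i = j by omega)]
    by_cases h1 : j = i + 1
    · subst h1
      rw [if_neg (by omega), if_pos rfl, if_pos rfl]
      ring
    · rw [if_neg h1, if_neg (show ¬ i + 1 = j by omega)]
      by_cases h2 : j = i + 2
      · subst h2
        rw [if_pos rfl]
        ring
      · rw [if_neg (show ¬ i + 2 = j by omega), if_neg (by omega)]
        ring

theorem form1_U {q : K} (hq : ∀ i, 1 ≤ i → q ^ i ≠ 1) (a : K) (i j : ℕ) (h : i < j) :
    form1 a q (U a q i) (U a q j) = if j = i + 1 then (1 + a) * q ^ i * bb a q i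
      else if j = i + 2 then bb a q (i + 1) else 0 := by
  have e : X * (U a q i * dq q (U a q j) - U a q j * dq q (U a q i)) =
      C (1 - q ^ j) * (X * (U a q i * U a q (j - 1))) -
        C (1 - q ^ i) * (X * (U a q (i - 1) * U a q j)) := by
    rw [dq_U', dq_U']
    ring
  rw [form1_apply, e, map_sub, mom_C_mul, mom_C_mul, mom_X_U_U hq a i (j - 1) (by omega),
    mom_X_U_U hq a (i - 1) j (by omega), if_neg (show ¬ j = i - 1 by omega)]
  have e2 : (1 - q ^ i) * (if j = i - 1 + 1 then nm a q j else 0) = 0 := by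
    cases i with
    | zero => simp
    | succ i => rw [if_neg (by omega), mul_zero]
  rw [e2, sub_zero]
  by_cases h1 : j = i + 1
  · subst h1
    rw [Nat.add_sub_cancel, if_pos rfl, if_pos rfl, bb]
    ring
  · rw [if_neg (by omega), if_neg h1]
    by_cases h2 : j = i + 2
    · subst h2
      rw [if_pos (by omega), if_pos rfl, bb, show i + 2 - 1 = i + 1 by omega]
    · rw [if_neg (by omega), if_neg h2, mul_zero]

theorem form0_skew (a q : K) (f h : K[X]) : form0 a q f h = - form0 a q h f := by
  rw [form0_apply, form0_apply, ← map_neg]; congr 1; ring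

theorem form1_skew (a q : K) (f h : K[X]) : form1 a q f h = - form1 a q h f := by
  rw [form1_apply, form1_apply, ← map_neg]; congr 1; ring

end Pool.Agent.Q162.Pfaff
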