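import Pool.Agent.Q162.Pfaff.Basic

/-! Congruence invariance, recursive form, and the Pfaffian of a band matrix. -/

set_option autoImplicit false

namespace Pool.Agent.Q162.Pfaff

open Equiv Finset Matrix

variable {R : Type*} [CommRing R]

/-- **Congruence.** -/
theorem pfSum_congr {n : ℕ} (A B : Matrix (Fin (2 * n)) (Fin (2 * n)) R) :
    pfSum (B * A * Bᵀ) = B.det * pfSum A := by
  classical
  -- positions as `Fin n × Bool`-like pairs are avoided: we expand each factor
  have h1 : ∀ σ : Perm (Fin (2 * n)), ∏ k : Fin n, (B * A * Bᵀ) (σ (ev k)) (σ (od k)) =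
      ∑ f : Fin (2 * n) → Fin (2 * n), (∏ i, B (σ i) (f i)) * ∏ k : Fin n, A (f (ev k)) (f (od k)) := by
    intro σ
    have h2 : ∀ k : Fin n, (B * A * Bᵀ) (σ (ev k)) (σ (od k)) =
        ∑ p : Fin (2 * n) × Fin (2 * n), B (σ (ev k)) p.1 * B (σ (od k)) p.2 * A p.1 p.2 := by
      intro k
      rw [Matrix.mul_apply, Fintype.sum_prod_type_right]
      apply Finset.sum_congr rfl
      intro v _
      rw [Matrix.mul_apply, Finset.sum_mul]
      apply Finset.sum_congr rfl
      intro u _
      rw [Matrix.transpose_apply]
      ring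
    rw [Finset.prod_congr rfl (fun k _ => h2 k), Finset.prod_univ_sum, Fintype.piFinset_univ]
    -- reindex functions on positions by functions on pairs
    let E : (Fin (2 * n) → Fin (2 * n)) ≃ (Fin n → Fin (2 * n) × Fin (2 * n)) :=
      { toFun := fun f k => (f (ev k), f (od k))
        invFun := fun g i => if h : i.1 % 2 = 0 then (g ⟨i.1 / 2, by have := i.2; omega⟩).1
          else (g ⟨i.1 / 2, by have := i.2; omega⟩).2
        left_inv := by
          intro f
          funext i
          by_cases h : i.1 % 2 = 0
          · simp only [h, dif_pos]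
            congr 1
            ext; simp only [ev]; omega
          · simp only [h, dif_neg, not_false_eq_true]
            congr 1
            ext; simp only [od]; omega
        right_inv := by
          intro g
          funext k
          have h1 : (ev k).1 % 2 = 0 := by simp only [ev]; omega
          have h2 : ¬ (od k).1 % 2 = 0 := by simp only [od]; omega
          have h3 : (⟨(ev k).1 / 2, by have := (ev k).2; omega⟩ : Fin n) = k := by
            ext; simp only [ev]; omega
          have h4 : (⟨(od k).1 / 2, by have := (od k).2; omega⟩ : Fin n) = k := by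
            ext; simp only [od]; omega
          simp only [h1, h2, dif_pos, dif_neg, not_false_eq_true, h3, h4] }
    rw [← Equiv.sum_comp E]
    apply Finset.sum_congr rfl
    intro f _
    have h3 : ∏ i, B (σ i) (f i) = ∏ k : Fin n, (B (σ (ev k)) (f (ev k)) * B (σ (od k)) (f (od k))) := by
      let F : Fin n × Bool ≃ Fin (2 * n) :=
        { toFun := fun p => if p.2 then od p.1 else ev p.1
          invFun := fun i => (⟨i.1 / 2, by have := i.2; omega⟩, decide (i.1 % 2 = 1))
          left_inv := by
            rintro ⟨k, b⟩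
            cases b
            · simp only [ev, Bool.false_eq_true, if_false, Prod.mk.injEq, decide_eq_false_iff_not]
              refine ⟨by ext; simp, by omega⟩
            · simp only [od, if_true, Prod.mk.injEq, decide_eq_true_eq]
              refine ⟨by ext; simp only; omega, by omega⟩
          right_inv := by
            intro i
            by_cases h : i.1 % 2 = 1
            · simp only [h, decide_true, if_true, od]
              ext; simp only; omega
            · simp only [h, decide_false, Bool.false_eq_true, if_false, ev]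
              ext; simp only; omega }
      rw [← Equiv.prod_comp F, Fintype.prod_prod_type]
      apply Finset.prod_congr rfl
      intro k _
      rw [Fintype.prod_bool]
      simp only [F, Equiv.coe_fn_mk, if_true, Bool.false_eq_true, if_false]
      ring
    rw [h3, ← Finset.prod_mul_distrib]
    rfl
  unfold pfSum tm
  simp_rw [h1, Finset.mul_sum]
  rw [Finset.sum_comm]
  -- the inner sum is a determinant
  have h4 : ∀ f : Fin (2 * n) → Fin (2 * n),
      ∑ σ : Perm (Fin (2 * n)), ((Perm.sign σ : ℤ) : R) *
        ((∏ i, B (σ i) (f i)) * ∏ k : Fin n, A (f (ev k)) (f (od k))) =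
      (B.submatrix id f).det * ∏ k : Fin n, A (f (ev k)) (f (od k)) := by
    intro f
    rw [Matrix.det_apply', Finset.sum_mul]
    apply Finset.sum_congr rfl
    intro σ _
    simp only [Matrix.submatrix_apply, id]
    ring
  rw [Finset.sum_congr rfl (fun f _ => h4 f)]
  -- only permutations contribute
  have h5 : ∑ f : Fin (2 * n) → Fin (2 * n),
      (B.submatrix id f).det * ∏ k : Fin n, A (f (ev k)) (f (od k)) =
      ∑ τ : Perm (Fin (2 * n)), (B.submatrix id τ).det * ∏ k : Fin n, A (τ (ev k)) (τ (od k)) := by
    symm
    refine Finset.sum_of_injOn (fun τ : Perm (Fin (2 * n)) => (τ : Fin (2 * n) → Fin (2 * n)))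
      ?_ ?_ ?_ ?_
    · intro τ _ τ' _ h
      exact DFunLike.coe_injective h
    · intro τ _; simp
    · intro f _ hf
      have hni : ¬ Function.Injective f := by
        intro hinj
        apply hf
        refine ⟨Equiv.ofBijective f (Finite.injective_iff_bijective.mp hinj), by simp, rfl⟩
      rw [Function.not_injective_iff] at hni
      obtain ⟨i, j, hij, hne⟩ := hni
      rw [Matrix.det_zero_of_column_eq hne, zero_mul]
      intro k
      simp [hij]
    · intro τ _; rfl
  rw [h5]
  apply Finset.sum_congr rfl
  intro τ _
  rw [Matrix.det_permute']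
  ring

/-- index map deleting `0` and `j + 1` -/
def skip (j a : ℕ) : ℕ := if a < j then a + 1 else a + 2

/-- recursive Pfaffian of the leading `2 n` by `2 n` block of an infinite array -/
def pfn : ℕ → (ℕ → ℕ → R) → R
  | 0, _ => 1
  | n + 1, f => ∑ j ∈ range (2 * n + 1), (-1) ^ j * f 0 (j + 1) *
      pfn n (fun a b => f (skip j a) (skip j b))

theorem pfSum_eq (n : ℕ) (f : ℕ → ℕ → R) (hf : ∀ i j, f i j = - f j i) :
    pfSum (n := n) (fun i j => f i j) = ((2 ^ n * n.factorial : ℕ) : R) * pfn n f := by
  induction n generalizing f with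
  | zero =>
    unfold pfSum tm pfn
    simp
  | succ n ih =>
    rw [pfSum_succ _ (fun i j => hf i j)]
    have h1 : ∀ j : Fin (2 * n + 1), (-1 : R) ^ (j : ℕ) *
        f ((0 : Fin (2 * n + 2)) : ℕ) (j.succ : ℕ) *
        pfSum (n := n) (Matrix.submatrix (fun i j : Fin (2 * (n + 1)) => f i j)
          (fun k => (j.succAbove k).succ) (fun k => (j.succAbove k).succ)) =
        ((2 ^ n * n.factorial : ℕ) : R) * ((-1) ^ (j : ℕ) * f 0 (j + 1) *
          pfn n (fun a b => f (skip j a) (skip j b))) := by
      intro j
      have hk : ∀ k : Fin (2 * n), (((j.succAbove k).succ : Fin (2 * n + 2)) : ℕ) = skip j k := by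
        intro k
        unfold skip
        rw [Fin.val_succ]
        by_cases h : (k : ℕ) < j
        · rw [if_pos h, Fin.succAbove_of_castSucc_lt _ _ (by simpa [Fin.lt_def] using h)]
          simp
        · rw [if_neg h, Fin.succAbove_of_le_castSucc _ _ (by simpa [Fin.le_def] using h)]
          simp
      have h2 : (Matrix.submatrix (fun i j : Fin (2 * (n + 1)) => f i j)
          (fun k => (j.succAbove k).succ) (fun k => (j.succAbove k).succ) :
            Matrix (Fin (2 * n)) (Fin (2 * n)) R) =
          fun a b : Fin (2 * n) => (fun a b : ℕ => f (skip j a) (skip j b)) (a : ℕ) (b : ℕ) := by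
        funext a b
        change f (((j.succAbove a).succ : Fin (2 * n + 2)) : ℕ)
          (((j.succAbove b).succ : Fin (2 * n + 2)) : ℕ) = _
        rw [hk, hk]
      rw [h2, ih (fun a b => f (skip j a) (skip j b)) (fun a b => hf _ _)]
      simp only [Fin.val_zero, Fin.val_succ]
      ring
    rw [Finset.sum_congr rfl (fun j _ => h1 j), ← Finset.mul_sum,
      Fin.sum_univ_eq_sum_range (fun j => (-1 : R) ^ j * f 0 (j + 1) *
        pfn n (fun a b => f (skip j a) (skip j b))) (2 * n + 1), ← mul_assoc, pfn]
    congr 1
    rw [← Nat.cast_mul]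
    congr 1
    rw [Nat.factorial_succ]
    ring

theorem pfn_one (f : ℕ → ℕ → R) : pfn 1 f = f 0 1 := by
  simp [pfn]

/-- band matrices: only the two diagonals next to the main one -/
theorem pfn_band (n : ℕ) (f : ℕ → ℕ → R) (hf : ∀ i j, i + 3 ≤ j → f i j = 0) :
    pfn (n + 2) f = f 0 1 * pfn (n + 1) (fun a b => f (a + 2) (b + 2)) -
      f 0 2 * f 1 3 * pfn n (fun a b => f (a + 4) (b + 4)) := by
  rw [pfn, Finset.sum_range_succ', show 2 * (n + 1) = (2 * n + 1) + 1 by ring,
    Finset.sum_range_succ']
  have h0 : ∑ k ∈ range (2 * n + 1), (-1 : R) ^ (k + 1 + 1) * f 0 (k + 1 + 1 + 1) *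
      pfn (n + 1) (fun a b => f (skip (k + 1 + 1) a) (skip (k + 1 + 1) b)) = 0 := by
    apply Finset.sum_eq_zero
    intro k _
    rw [hf 0 (k + 1 + 1 + 1) (by omega)]
    ring
  rw [h0]
  have h1 : pfn (n + 1) (fun a b => f (skip (0 + 1) a) (skip (0 + 1) b)) =
      f 1 3 * pfn n (fun a b => f (a + 4) (b + 4)) := by
    rw [pfn, Finset.sum_range_succ']
    have h2 : ∑ k ∈ range (2 * n), (-1 : R) ^ (k + 1) *
        f (skip (0 + 1) 0) (skip (0 + 1) (k + 1 + 1)) *
        pfn n (fun a b => f (skip (0 + 1) (skip (k + 1) a)) (skip (0 + 1) (skip (k + 1) b))) = 0 := by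
      apply Finset.sum_eq_zero
      intro k _
      have : f (skip (0 + 1) 0) (skip (0 + 1) (k + 1 + 1)) = 0 := by
        apply hf
        simp [skip]
      rw [this]
      ring
    rw [h2]
    have h3 : (fun a b => f (skip (0 + 1) (skip 0 a)) (skip (0 + 1) (skip 0 b))) =
        fun a b => f (a + 4) (b + 4) := by
      funext a b
      simp [skip]
    rw [h3]
    have h4 : f (skip (0 + 1) 0) (skip (0 + 1) (0 + 1)) = f 1 3 := by
      simp [skip]
    rw [h4]
    ring
  rw [h1]
  have h5 : (fun a b => f (skip 0 a) (skip 0 b)) = fun a b => f (a + 2) (b + 2) := by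
    funext a b
    simp [skip]
  rw [h5]
  ring

end Pool.Agent.Q162.Pfaff
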