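import Mathlib

/-! Pfaffians defined as the signed sum over all permutations: expansion along the first row and
behaviour under congruence. -/

set_option autoImplicit false

namespace Pool.Agent.Q162.Pfaff

open Equiv Finset

/-- position `2 k` -/
def ev {n : ℕ} (k : Fin n) : Fin (2 * n) := ⟨2 * k.1, by have := k.2; omega⟩

/-- position `2 k + 1` -/
def od {n : ℕ} (k : Fin n) : Fin (2 * n) := ⟨2 * k.1 + 1, by have := k.2; omega⟩

section sums

variable {R : Type*} [CommRing R]

/-- one term of the sum -/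
def tm {n : ℕ} (A : Matrix (Fin (2 * n)) (Fin (2 * n)) R) (σ : Perm (Fin (2 * n))) : R :=
  ((Perm.sign σ : ℤ) : R) * ∏ k : Fin n, A (σ (ev k)) (σ (od k))

/-- the signed sum over all permutations, that is `2 ^ n * n !` times the Pfaffian -/
def pfSum {n : ℕ} (A : Matrix (Fin (2 * n)) (Fin (2 * n)) R) : R :=
  ∑ σ : Perm (Fin (2 * n)), tm A σ

theorem ev_inj {n : ℕ} {k l : Fin n} : ev k = ev l ↔ k = l := by
  simp only [ev, Fin.ext_iff]; omega

theorem od_inj {n : ℕ} {k l : Fin n} : od k = od l ↔ k = l := by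
  simp only [od, Fin.ext_iff]; omega

theorem ev_ne_od {n : ℕ} (k l : Fin n) : ev k ≠ od l := by
  simp only [ev, od, ne_eq, Fin.ext_iff]; omega

theorem ev_or_od {n : ℕ} (p : Fin (2 * n)) : (∃ k, p = ev k) ∨ ∃ k, p = od k := by
  rcases Nat.even_or_odd' p.1 with ⟨c, h | h⟩
  · left
    refine ⟨⟨c, by have := p.2; omega⟩, ?_⟩
    ext; simpa [ev] using h
  · right
    refine ⟨⟨c, by have := p.2; omega⟩, ?_⟩
    ext; simpa [od] using h

theorem tm_flip {n : ℕ} (A : Matrix (Fin (2 * n)) (Fin (2 * n)) R) (hA : ∀ i j, A i j = - A j i)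
    (σ : Perm (Fin (2 * n))) (k : Fin n) : tm A (σ * swap (ev k) (od k)) = tm A σ := by
  unfold tm
  rw [Perm.sign_mul, Perm.sign_swap (ev_ne_od k k)]
  have h : ∏ l : Fin n, A ((σ * swap (ev k) (od k)) (ev l)) ((σ * swap (ev k) (od k)) (od l)) =
      - ∏ l : Fin n, A (σ (ev l)) (σ (od l)) := by
    rw [← Finset.mul_prod_erase _ _ (Finset.mem_univ k),
      ← Finset.mul_prod_erase _ (fun l => A (σ (ev l)) (σ (od l))) (Finset.mem_univ k)]
    have h1 : ∀ l ∈ Finset.univ.erase k,
        A ((σ * swap (ev k) (od k)) (ev l)) ((σ * swap (ev k) (od k)) (od l)) =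
          A (σ (ev l)) (σ (od l)) := by
      intro l hl
      have hl : l ≠ k := Finset.ne_of_mem_erase hl
      rw [Perm.mul_apply, Perm.mul_apply, swap_apply_of_ne_of_ne, swap_apply_of_ne_of_ne]
      · exact fun h => ev_ne_od k l h.symm
      · exact fun h => hl (od_inj.mp h)
      · exact fun h => hl (ev_inj.mp h)
      · exact fun h => ev_ne_od l k h
    rw [Finset.prod_congr rfl h1, Perm.mul_apply, Perm.mul_apply, swap_apply_left,
      swap_apply_right, hA, neg_mul]
  rw [h]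
  push_cast
  ring

theorem tm_pair {n : ℕ} (A : Matrix (Fin (2 * n)) (Fin (2 * n)) R)
    (σ : Perm (Fin (2 * n))) (k l : Fin n) :
    tm A (σ * (swap (ev k) (ev l) * swap (od k) (od l))) = tm A σ := by
  by_cases hkl : k = l
  · subst hkl
    rw [swap_self, swap_self]
    rfl
  unfold tm
  have hs : Perm.sign (σ * (swap (ev k) (ev l) * swap (od k) (od l))) = Perm.sign σ := by
    rw [Perm.sign_mul, Perm.sign_mul, Perm.sign_swap (fun h => hkl (ev_inj.mp h)),
      Perm.sign_swap (fun h => hkl (od_inj.mp h))]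
    simp
  rw [hs]
  congr 1
  have he : ∀ j : Fin n, (swap (ev k) (ev l) * swap (od k) (od l)) (ev j) = ev (swap k l j) := by
    intro j
    rw [Perm.mul_apply, swap_apply_of_ne_of_ne (ev_ne_od j k) (ev_ne_od j l)]
    by_cases h1 : j = k
    · subst h1; simp
    by_cases h2 : j = l
    · subst h2; simp
    rw [swap_apply_of_ne_of_ne h1 h2, swap_apply_of_ne_of_ne]
    · exact fun h => h1 (ev_inj.mp h)
    · exact fun h => h2 (ev_inj.mp h)
  have ho : ∀ j : Fin n, (swap (ev k) (ev l) * swap (od k) (od l)) (od j) = od (swap k l j) := by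
    intro j
    rw [Perm.mul_apply]
    have : swap (od k) (od l) (od j) = od (swap k l j) := by
      by_cases h1 : j = k
      · subst h1; simp
      by_cases h2 : j = l
      · subst h2; simp
      rw [swap_apply_of_ne_of_ne h1 h2, swap_apply_of_ne_of_ne]
      · exact fun h => h1 (od_inj.mp h)
      · exact fun h => h2 (od_inj.mp h)
    rw [this, swap_apply_of_ne_of_ne (fun h => ev_ne_od k _ h.symm) (fun h => ev_ne_od l _ h.symm)]
  have : ∀ j : Fin n, A ((σ * (swap (ev k) (ev l) * swap (od k) (od l))) (ev j))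
      ((σ * (swap (ev k) (ev l) * swap (od k) (od l))) (od j)) =
      (fun j => A (σ (ev j)) (σ (od j))) (swap k l j) := by
    intro j
    rw [Perm.mul_apply σ, Perm.mul_apply σ, he, ho]
  rw [Finset.prod_congr rfl (fun j _ => this j)]
  exact Equiv.prod_comp (swap k l) (fun j => A (σ (ev j)) (σ (od j)))

/-- permutations fixing `0` -/
theorem sum_fix_zero {M : Type*} [AddCommMonoid M] {m : ℕ} (g : Perm (Fin (m + 1)) → M) :
    ∑ σ ∈ Finset.univ.filter (fun σ : Perm (Fin (m + 1)) => σ 0 = 0), g σ =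
      ∑ τ : Perm (Fin m), g (Perm.decomposeFin.symm (0, τ)) := by
  symm
  refine Finset.sum_bij (fun τ _ => Perm.decomposeFin.symm (0, τ)) ?_ ?_ ?_ ?_
  · intro τ _
    simp
  · intro τ _ τ' _ h
    have := Perm.decomposeFin.symm.injective h
    simpa using this
  · intro σ hσ
    rw [Finset.mem_filter] at hσ
    refine ⟨(Perm.decomposeFin σ).2, Finset.mem_univ _, ?_⟩
    have h1 : (Perm.decomposeFin σ).1 = 0 := by
      have h2 := Perm.decomposeFin_symm_apply_zero (Perm.decomposeFin σ).1 (Perm.decomposeFin σ).2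
      rw [Prod.mk.eta, Equiv.symm_apply_apply] at h2
      rw [← h2]; exact hσ.2
    have h3 : (0, (Perm.decomposeFin σ).2) = Perm.decomposeFin σ := by
      rw [← h1]
    rw [h3, Equiv.symm_apply_apply]
  · intro τ _; rfl

/-- grouping permutations by the value at `0` -/
theorem sum_by_value {M : Type*} [AddCommMonoid M] {m : ℕ} (g : Perm (Fin (m + 1)) → M) :
    ∑ σ : Perm (Fin (m + 1)), g σ =
      ∑ j : Fin (m + 1), ∑ τ : Perm (Fin m),
        g ((Fin.cycleRange j)⁻¹ * Perm.decomposeFin.symm (0, τ)) := by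
  rw [← Finset.sum_fiberwise_of_maps_to (s := Finset.univ) (t := Finset.univ)
    (g := fun σ : Perm (Fin (m + 1)) => σ 0) (fun _ _ => Finset.mem_univ _)]
  apply Finset.sum_congr rfl
  intro j _
  rw [← sum_fix_zero (fun σ => g ((Fin.cycleRange j)⁻¹ * σ))]
  refine Finset.sum_bij (fun σ _ => Fin.cycleRange j * σ) ?_ ?_ ?_ ?_
  · intro σ hσ
    rw [Finset.mem_filter] at hσ ⊢
    refine ⟨Finset.mem_univ _, ?_⟩
    rw [Perm.mul_apply, hσ.2, Fin.cycleRange_self]
  · intro σ _ σ' _ h
    exact mul_left_cancel h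
  · intro σ hσ
    rw [Finset.mem_filter] at hσ
    refine ⟨(Fin.cycleRange j)⁻¹ * σ, ?_, by simp⟩
    rw [Finset.mem_filter]
    refine ⟨Finset.mem_univ _, ?_⟩
    rw [Perm.mul_apply, hσ.2]
    exact Fin.cycleRange_symm_zero j
  · intro σ _; simp

/-- **Expansion along the first row.** -/
theorem pfSum_succ {n : ℕ} (A : Matrix (Fin (2 * (n + 1))) (Fin (2 * (n + 1))) R)
    (hA : ∀ i j, A i j = - A j i) :
    pfSum A = ((2 * (n + 1) : ℕ) : R) * ∑ j : Fin (2 * n + 1), (-1) ^ (j : ℕ) *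
      A (0 : Fin (2 * n + 2)) j.succ *
      pfSum (n := n) (A.submatrix (fun k => (j.succAbove k).succ)
        (fun k => (j.succAbove k).succ)) := by
  have h1 : pfSum A = ∑ p : Fin (2 * (n + 1)),
      ∑ σ ∈ Finset.univ.filter (fun σ : Perm (Fin (2 * (n + 1))) => σ⁻¹ (0 : Fin (2 * n + 2)) = p),
        tm A σ := by
    rw [Finset.sum_fiberwise_of_maps_to (s := Finset.univ) (t := Finset.univ)
      (g := fun σ : Perm (Fin (2 * (n + 1))) => σ⁻¹ (0 : Fin (2 * n + 2)))
      (fun _ _ => Finset.mem_univ _)]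
    rfl
  have h2 : ∀ p : Fin (2 * (n + 1)),
      ∑ σ ∈ Finset.univ.filter (fun σ : Perm (Fin (2 * (n + 1))) => σ⁻¹ (0 : Fin (2 * n + 2)) = p),
        tm A σ = ∑ σ ∈ Finset.univ.filter (fun σ : Perm (Fin (2 * n + 2)) => σ 0 = 0),
          tm (n := n + 1) A σ := by
    intro p
    -- a permutation of positions carrying `0` to `p` and keeping all terms
    obtain ⟨ρ, hρ0, hρ⟩ : ∃ ρ : Perm (Fin (2 * (n + 1))), ρ (0 : Fin (2 * n + 2)) = p ∧
        ∀ σ, tm A (σ * ρ) = tm A σ := by
      have hz : (0 : Fin (2 * n + 2)) = ev (n := n + 1) 0 := by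
        ext; simp [ev]
      rcases ev_or_od (n := n + 1) p with ⟨k, hk⟩ | ⟨k, hk⟩
      · refine ⟨swap (ev 0) (ev k) * swap (od 0) (od k), ?_, fun σ => tm_pair A σ 0 k⟩
        rw [hz, Perm.mul_apply, swap_apply_of_ne_of_ne (ev_ne_od _ _) (ev_ne_od _ _),
          swap_apply_left, hk]
      · refine ⟨swap (ev k) (od k) * (swap (ev 0) (ev k) * swap (od 0) (od k)), ?_, fun σ => ?_⟩
        · rw [hz, Perm.mul_apply, Perm.mul_apply,
            swap_apply_of_ne_of_ne (ev_ne_od _ _) (ev_ne_od _ _), swap_apply_left,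
            swap_apply_left, hk]
        · rw [← mul_assoc, tm_pair, tm_flip A hA]
    refine Finset.sum_bij (fun σ _ => σ * ρ) ?_ ?_ ?_ ?_
    · intro σ hσ
      rw [Finset.mem_filter] at hσ ⊢
      refine ⟨Finset.mem_univ _, ?_⟩
      rw [Perm.mul_apply, hρ0, ← hσ.2]
      exact σ.apply_symm_apply _
    · intro σ _ σ' _ h
      exact mul_right_cancel h
    · intro σ hσ
      rw [Finset.mem_filter] at hσ
      refine ⟨σ * ρ⁻¹, ?_, by simp⟩
      rw [Finset.mem_filter]
      refine ⟨Finset.mem_univ _, ?_⟩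
      rw [mul_inv_rev, inv_inv, Perm.mul_apply]
      have : σ⁻¹ (0 : Fin (2 * n + 2)) = (0 : Fin (2 * n + 2)) := by
        rw [Perm.inv_eq_iff_eq]; exact hσ.2.symm
      rw [this, hρ0]
    · intro σ _
      exact (hρ σ).symm
  rw [h1, Finset.sum_congr rfl (fun p _ => h2 p), Finset.sum_const, Finset.card_univ,
    Fintype.card_fin, nsmul_eq_mul]
  congr 1
  rw [sum_fix_zero, sum_by_value]
  apply Finset.sum_congr rfl
  intro j _
  unfold pfSum
  rw [Finset.mul_sum]
  apply Finset.sum_congr rfl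
  intro τ _
  unfold tm
  have hs : ((Perm.sign (Perm.decomposeFin.symm ((0 : Fin (2 * n + 1 + 1)),
      (Fin.cycleRange j)⁻¹ * Perm.decomposeFin.symm ((0 : Fin (2 * n + 1)), τ))) : ℤ) : R) =
      (-1) ^ (j : ℕ) * ((Perm.sign τ : ℤ) : R) := by
    rw [Perm.decomposeFin.symm_sign, if_pos rfl, one_mul, Perm.sign_mul, Perm.sign_inv,
      Fin.sign_cycleRange, Perm.decomposeFin.symm_sign, if_pos rfl, one_mul]
    push_cast
    ring
  have hv : ∀ i : Fin (2 * n + 1), (Perm.decomposeFin.symm ((0 : Fin (2 * n + 1 + 1)),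
      (Fin.cycleRange j)⁻¹ * Perm.decomposeFin.symm ((0 : Fin (2 * n + 1)), τ))) i.succ =
      ((Fin.cycleRange j)⁻¹ (Perm.decomposeFin.symm ((0 : Fin (2 * n + 1)), τ) i)).succ := by
    intro i
    rw [Perm.decomposeFin_symm_apply_succ]
    simp
  have hw : ∀ i : Fin (2 * n), (Perm.decomposeFin.symm ((0 : Fin (2 * n + 1)), τ)) i.succ =
      (τ i).succ := by
    intro i
    rw [Perm.decomposeFin_symm_apply_succ]
    simp
  have hc : ∀ i : Fin (2 * n), (Fin.cycleRange j)⁻¹ i.succ = j.succAbove i :=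
    fun i => Fin.cycleRange_symm_succ j i
  rw [Fin.prod_univ_succ]
  have e0 : ev (n := n + 1) 0 = (0 : Fin (2 * n + 1 + 1)) := by ext; simp [ev]
  have o0 : od (n := n + 1) 0 = (0 : Fin (2 * n + 1)).succ := by ext; simp [od]
  have es : ∀ k : Fin n, ev (n := n + 1) k.succ = (ev k).succ.succ := by
    intro k; ext; simp [ev]; ring
  have os : ∀ k : Fin n, od (n := n + 1) k.succ = (od k).succ.succ := by
    intro k; ext; simp [od]; ring
  have hfirst : A ((Perm.decomposeFin.symm ((0 : Fin (2 * n + 1 + 1)),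
      (Fin.cycleRange j)⁻¹ * Perm.decomposeFin.symm ((0 : Fin (2 * n + 1)), τ)))
        (ev (n := n + 1) 0)) ((Perm.decomposeFin.symm ((0 : Fin (2 * n + 1 + 1)),
      (Fin.cycleRange j)⁻¹ * Perm.decomposeFin.symm ((0 : Fin (2 * n + 1)), τ)))
        (od (n := n + 1) 0)) = A (0 : Fin (2 * n + 2)) j.succ := by
    rw [e0, o0, Perm.decomposeFin_symm_apply_zero, hv, Perm.decomposeFin_symm_apply_zero]
    congr 2
    exact Fin.cycleRange_symm_zero j
  have hrest : ∀ k : Fin n, A ((Perm.decomposeFin.symm ((0 : Fin (2 * n + 1 + 1)),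
      (Fin.cycleRange j)⁻¹ * Perm.decomposeFin.symm ((0 : Fin (2 * n + 1)), τ)))
        (ev (n := n + 1) k.succ)) ((Perm.decomposeFin.symm ((0 : Fin (2 * n + 1 + 1)),
      (Fin.cycleRange j)⁻¹ * Perm.decomposeFin.symm ((0 : Fin (2 * n + 1)), τ)))
        (od (n := n + 1) k.succ)) = A.submatrix (fun k => (j.succAbove k).succ)
        (fun k => (j.succAbove k).succ) (τ (ev k)) (τ (od k)) := by
    intro k
    rw [es, os, hv, hv, hw, hw, hc, hc]
    rfl
  rw [hfirst, Finset.prod_congr rfl (fun k _ => hrest k), hs]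
  ring

end sums

end Pool.Agent.Q162.Pfaff
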