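import Pool.Agent.Q162.Pfaff.Band

/-! Change of basis for Gram matrices of bilinear forms on polynomials. -/

set_option autoImplicit false

namespace Pool.Agent.Q162.Pfaff

open Polynomial Finset

variable {R : Type*} [CommRing R]

/-- Replacing the monomials by a monic family of polynomials of degrees `0, 1, 2, ...` does not
change the Pfaffian of the Gram matrix. -/
theorem gram_transfer (ψ : R[X] →ₗ[R] R[X] →ₗ[R] R) (U : ℕ → R[X])
    (hd : ∀ i j, i < j → (U i).coeff j = 0) (hm : ∀ i, (U i).coeff i = 1) (n : ℕ) :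
    pfSum (n := n) (fun i j => ψ (U i) (U j)) =
      pfSum (n := n) (fun i j => ψ (X ^ (i : ℕ)) (X ^ (j : ℕ))) := by
  classical
  let B : Matrix (Fin (2 * n)) (Fin (2 * n)) R := fun i k => (U i).coeff k
  have hB : B.det = 1 := by
    rw [Matrix.det_of_isLowerTriangular]
    · apply Finset.prod_eq_one
      intro i _
      exact hm i
    · intro i j hij
      exact hd i j (by simpa using hij)
  have hsum : ∀ i : Fin (2 * n), U i = ∑ k : Fin (2 * n), (U i).coeff k • (X : R[X]) ^ (k : ℕ) := by
    intro i
    have h1 : (U i).natDegree < 2 * n := by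
      refine lt_of_le_of_lt ?_ i.2
      rw [Polynomial.natDegree_le_iff_coeff_eq_zero]
      intro N hN
      exact hd i N hN
    conv_lhs => rw [Polynomial.as_sum_range_C_mul_X_pow' _ h1]
    rw [Fin.sum_univ_eq_sum_range (fun k => (U i).coeff k • (X : R[X]) ^ k) (2 * n)]
    apply Finset.sum_congr rfl
    intro k _
    rw [Polynomial.smul_eq_C_mul]
  let A : Matrix (Fin (2 * n)) (Fin (2 * n)) R :=
    fun i j => ψ (X ^ (i : ℕ)) (X ^ (j : ℕ))
  have h2 : (fun i j : Fin (2 * n) => ψ (U i) (U j)) = B * A * B.transpose := by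
    funext i j
    rw [Matrix.mul_apply]
    conv_lhs => rw [hsum i, hsum j]
    rw [map_sum]
    apply Finset.sum_congr rfl
    intro l _
    rw [map_smul, Matrix.transpose_apply, smul_eq_mul, map_sum, LinearMap.sum_apply, mul_comm]
    congr 1
    rw [Matrix.mul_apply]
    apply Finset.sum_congr rfl
    intro k _
    rw [map_smul, LinearMap.smul_apply, smul_eq_mul]
  have h3 := pfSum_congr A B
  rw [hB, one_mul, ← h2] at h3
  exact h3

end Pool.Agent.Q162.Pfaff
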